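import Pool.Agent.R228.AG.Main

/-!
# Hidden hyperplane convexity does not give finitely many aggregations

The system consists of the three quadratics `2⟨x, y⟩`, `2|y|² - 2⟨x, y⟩ - 2`, `2|x|² - 2⟨x, y⟩ - 2` in
the twelve variables `(x, y) ∈ ℝ⁶ × ℝ⁶`.
-/

set_option autoImplicit false

namespace Pool.Agent.Results.MP_9b412f_an.InfinitelyMany

open Pool.Agent.R228.AG

/-- There are `n`, `m` (here `n = 12`, `m = 3`) and `m` quadratic functions on `ℝⁿ` (coordinates
indexed by a set of `n` elements) with hidden hyperplane convexity, `S ≠ ∅` and `conv S ≠ ℝⁿ`, such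
that `conv S` is not described by finitely many good aggregations. -/
theorem result : ∃ (ι : Type) (_ : Fintype ι) (_ : DecidableEq ι) (m : ℕ) (q : QuadSystem ι m),
    Fintype.card ι = 12 ∧ m = 3 ∧ q.HHC ∧ q.S.Nonempty ∧ convexHull ℝ q.S ≠ Set.univ ∧
      ¬ q.FinitelyDescribed :=
  ⟨I12, inferInstance, inferInstance, 3, sys, rfl, rfl, hhc, S_nonempty, hull_ne, not_finite⟩

end Pool.Agent.Results.MP_9b412f_an.InfinitelyMany
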